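import Pool.Agent.Helper74.DST.Final2

/-!
# Interconnected bicircular and cobicircular minors: fewer than quartically many conflicts

Problem MP_5165fa_co (Geelen).  Let `N₁ = M / C₁ \ D₁ ≅ B(G_n^+)` and `N₂ = M / C₂ \ D₂ ≅ B^*(G_n^+)`
be minors of `M` on disjoint ground sets `E₁`, `E₂`.  An element outside of them can be in conflict
in two ways: contracted for `N₁` and deleted for `N₂` (`C₁ ∩ D₂`), or deleted for `N₁` and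
contracted for `N₂` (`D₁ ∩ C₂`).  For every integer `k` there is `N` such that, if `n ≥ N`,
`κ_M(E₁, E₂) ≥ N` and

* `C₁ ∩ D₂ = F ∪ G ∪ H` with `N * |H| ≤ n ^ 4`, where not contracting `F` changes the rank of `E₁`
  by at most `n ^ 2 / N` and, in the dual, not contracting `G` changes the rank of `E₂` by at most
  `n ^ 2 / N`, or
* `D₁ ∩ C₂ = F ∪ G ∪ H`, where contracting `F` as well changes the rank of `E₁` by at most `q` and,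
  in the dual, contracting `G` as well changes the rank of `E₂` by at most `q`, for a `q` with
  `N * (q + 1) ≤ n` and `N * (q + 1) ^ 2 * |H| ≤ n ^ 4`, or
* `N * r(M) ≤ n ^ 4` or `N * r(M^*) ≤ n ^ 4`,

then `M` has a `U_{k,2k}`-minor.  In particular this holds for every `M` with `N * |E(M)| ≤ n ^ 4`.
-/

namespace Pool.Agent.Results.MP_5165fa_co.FewConflicts

open Set BIC BICS
open scoped Matroid

universe u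

theorem result (k : ℕ) : ∃ N : ℕ, ∀ n ≥ N, ∀ (α : Type u) (M : Matroid α),
    M.Finite → ∀ C₁ D₁ C₂ D₂ : Set α, C₁ ⊆ M.E → D₁ ⊆ M.E → C₂ ⊆ M.E → D₂ ⊆ M.E →
    Disjoint C₁ D₁ → Disjoint C₂ D₂ → Disjoint (M ／ C₁ ＼ D₁).E (M ／ C₂ ＼ D₂).E →
    IsBicircular (M ／ C₁ ＼ D₁) (GPlus n) →
    IsBicircular (M ／ C₂ ＼ D₂)✶ (GPlus n) →
    (∀ X : Set α, (M ／ C₁ ＼ D₁).E ⊆ X → X ⊆ M.E \ (M ／ C₂ ＼ D₂).E →
      (N : ℕ∞) + M.eRk M.E ≤ M.eRk X + M.eRk (M.E \ X)) →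
    (∃ F G H : Set α, C₁ ∩ D₂ = F ∪ G ∪ H ∧ N * H.ncard ≤ n ^ 4 ∧
        N * (M ／ (C₁ \ F)).eRk (M ／ C₁ ＼ D₁).E ≤ N * (M ／ C₁).eRk (M ／ C₁ ＼ D₁).E + n ^ 2 ∧
        N * (M✶ ／ (D₂ \ G)).eRk (M ／ C₂ ＼ D₂).E ≤
          N * (M✶ ／ D₂).eRk (M ／ C₂ ＼ D₂).E + n ^ 2) ∨
      (∃ (F G H : Set α) (q : ℕ), D₁ ∩ C₂ = F ∪ G ∪ H ∧ N * (q + 1) ≤ n ∧
        N * (q + 1) ^ 2 * H.ncard ≤ n ^ 4 ∧
        (M ／ C₁).eRk (M ／ C₁ ＼ D₁).E ≤ (M ／ (C₁ ∪ F)).eRk (M ／ C₁ ＼ D₁).E + q ∧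
        (M✶ ／ D₂).eRk (M ／ C₂ ＼ D₂).E ≤ (M✶ ／ (D₂ ∪ G)).eRk (M ／ C₂ ＼ D₂).E + q) ∨
      N * M.eRank ≤ n ^ 4 ∨ N * M✶.eRank ≤ n ^ 4 →
    ∃ U : Matroid α, U ≤m M ∧ U.E.ncard = 2 * k ∧ ∀ B, U.IsBase B ↔ B ⊆ U.E ∧ B.ncard = k :=
  few_conflicts2 k

end Pool.Agent.Results.MP_5165fa_co.FewConflicts
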